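import Pool.Agent.T2h4.X15.WD
import Pool.Agent.Z15P.T2h99.J.Tr
import Pool.Agent.Z15P.T2h99.J.Fin
import Pool.Agent.Z15P.Z15.H.D1

/-!
Rational equivalence on the generic fibre of a family over a base: `X_TR`.
-/

set_option autoImplicit false

open FF FF.PP MvPolynomial Pool.Agent.Z15P.Z15.H Pool.Agent.Z15P.Z15.J Pool.Agent.Z15P.Z15.J.Stm
  Pool.Agent.Z15P.Z15.S Pool.Agent.Z15P.Rel
open Pool.Agent.Z15P.T2h64.H15 (cyc_scale aeval_scale)
open Pool.Agent.Z15P.T2h99.J (dn up algRF towRF red_scale_zero reg_aeval)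

namespace Pool.Agent.T2h4.X15

section

variable {K : Type} [Field K] {μ ν : Type}

theorem spec_map {E E' : Type} [Field E] [Field E'] [Algebra K E] [Algebra K E'] (φ : E →ₐ[K] E')
    (t : μ → E) (P : MvPolynomial ν (MvPolynomial μ K)) :
    MvPolynomial.map (φ : E →+* E') (spec t P) = spec (fun i => φ (t i)) P := by
  unfold spec
  rw [MvPolynomial.map_map]
  have h : (φ : E →+* E').comp (aeval t : MvPolynomial μ K →ₐ[K] E).toRingHom =
      (aeval (fun i => φ (t i)) : MvPolynomial μ K →ₐ[K] E').toRingHom := by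
    apply MvPolynomial.ringHom_ext
    · intro r
      show φ (aeval t (C r)) = aeval (fun i => φ (t i)) (C r)
      rw [aeval_C, aeval_C, AlgHom.commutes]
    · intro i
      show φ (aeval t (X i)) = aeval (fun i => φ (t i)) (X i)
      rw [aeval_X, aeval_X]
  rw [h]

theorem spec_scale {E : Type} [Field E] [Algebra K E] (t : μ → E) (c : E)
    {P : MvPolynomial ν (MvPolynomial μ K)} {e : ℕ} (hP : ∀ n, (P.coeff n).IsHomogeneous e) :
    spec (fun i => c * t i) P = C (c ^ e) * spec t P := by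
  ext n
  unfold spec
  rw [coeff_map, coeff_C_mul, coeff_map]
  exact aeval_scale t c (hP n)

theorem eval_scale {E : Type} [Field E] (x : ν → E) (c : E) {P : MvPolynomial ν E} {n : ℕ}
    (hP : P.IsHomogeneous n) : eval (fun i => c * x i) P = c ^ n * eval x P := by
  have h1 := aeval_scale x c hP
  have h2 : ∀ y : ν → E, aeval y P = eval y P := fun y => rfl
  rwa [h2, h2] at h1

theorem reg_spec {E : Type} [Field E] [Algebra K E] (v : Place K E) {t : μ → E} {x : ν → E}
    (ht : ∀ i, v.Reg (t i)) (hx : ∀ i, v.Reg (x i)) (P : MvPolynomial ν (MvPolynomial μ K)) :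
    v.Reg (eval x (spec t P)) ∧
      v.red (eval x (spec t P)) = eval (fun i => v.red (x i)) (spec (fun i => v.red (t i)) P) := by
  unfold spec
  induction P using MvPolynomial.induction_on with
  | C a =>
    rw [map_C, map_C, eval_C, eval_C]
    exact reg_aeval v ht a
  | add p q hp hq =>
    rw [map_add, map_add, map_add, map_add, v.red_add hp.1 hq.1, hp.2, hq.2]
    exact ⟨v.reg_add hp.1 hq.1, rfl⟩
  | mul_X p i hp =>
    rw [map_mul, map_mul, map_mul, map_mul, map_X, map_X, eval_X, eval_X, v.red_mul hp.1 (hx i), hp.2]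
    exact ⟨v.reg_mul hp.1 (hx i), rfl⟩

/-- the reduction of a point of the family -/
theorem isPt_red {γ α : Type} {G : γ → MvPolynomial μ K} {F : α → MvPolynomial ν (MvPolynomial μ K)}
    {g : γ → ℕ} {e d : α → ℕ} (hB : Bihom G F g e d) {M : Type} [Field M] [Algebra K M] {v : Place K M}
    {t : μ → M} {x : ν → M} (h : IsPt G F t x) {tb : μ → v.RF} {xb : ν → v.RF} (ht : IsRed v t tb)
    (hx : IsRed v x xb) : IsPt G F tb xb := by
  refine ⟨ht.1, hx.1, fun c => red_scale_zero ht (hB.base c) (h.base c), fun a => ?_⟩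
  obtain ⟨_, c, hc0, hc⟩ := ht
  obtain ⟨_, c', hc0', hc'⟩ := hx
  have h1 := (reg_spec v (fun i => (hc i).1) (fun i => (hc' i).1) (F a)).2
  have h2 : (fun i => v.red (c * t i)) = tb := funext fun i => (hc i).2
  have h3 : (fun i => v.red (c' * x i)) = xb := funext fun i => (hc' i).2
  rw [h2, h3, spec_scale t c (hB.thom a), map_mul, eval_C,
    eval_scale x c' (P := spec t (F a)) (n := d a) ((hB.hom a).map _), h.fib a, mul_zero, mul_zero,
    v.red_zero] at h1
  exact h1.symm

theorem seg_ne_zero {A : Type} [CommRing A] [NoZeroDivisors A] {t : μ → A} {x : ν → A} (ht : t ≠ 0)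
    (hx : x ≠ 0) : seg t x ≠ 0 := by
  obtain ⟨i, hi⟩ : ∃ i, t i ≠ 0 := by
    by_contra hn
    push Not at hn
    exact ht (funext hn)
  obtain ⟨j, hj⟩ : ∃ j, x j ≠ 0 := by
    by_contra hn
    push Not at hn
    exact hx (funext hn)
  intro h0
  have h1 := congrFun h0 (i, j)
  exact mul_ne_zero hi hj h1

/-- the reduction of the Segre coordinates -/
theorem isRed_seg {M : Type} [Field M] [Algebra K M] {v : Place K M} {t : μ → M} {x : ν → M}
    {tb : μ → v.RF} {xb : ν → v.RF} (ht : IsRed v t tb) (hx : IsRed v x xb) :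
    IsRed v (seg t x) (seg tb xb) := by
  refine ⟨seg_ne_zero ht.1 hx.1, ?_⟩
  obtain ⟨_, c, hc0, hc⟩ := ht
  obtain ⟨_, c', hc0', hc'⟩ := hx
  refine ⟨c * c', mul_ne_zero hc0 hc0', fun i => ?_⟩
  have h1 : c * c' * seg t x i = (c * t i.1) * (c' * x i.2) := by
    show c * c' * (t i.1 * x i.2) = _
    ring
  rw [h1]
  refine ⟨v.reg_mul (hc i.1).1 (hc' i.2).1, ?_⟩
  rw [v.red_mul (hc i.1).1 (hc' i.2).1, (hc i.1).2, (hc' i.2).2]
  rfl

end

section

variable {K0 K1 M : Type} [Field K0] [Field K1] [Field M] [Algebra K0 K1] [Algebra K1 M] [Algebra K0 M]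
  [IsScalarTower K0 K1 M]

/-- the reduction of a constant point at a place which is not trivial on `K1` -/
theorem trdeg_red (hABH : T_ABH) [Infinite K0] {δ : ℕ} (hδ : Algebra.trdeg K0 K1 = δ) {μ : Type}
    (v : Place K0 M) (hv : ∃ x : K1, v.ord (algebraMap K1 M x) ≠ 0) {t : μ → K1} {tb : μ → v.RF}
    (ht : IsRed v (cst M t) tb) : Algebra.trdeg K0 (ratioField K0 tb) < (δ : ℕ) := by
  obtain ⟨e0, v0, hov⟩ := exists_over v hv
  obtain ⟨m, hm1, hm2⟩ := hABH K0 K1 δ hδ v0
  obtain ⟨_, c, hc0, hc⟩ := ht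
  have hle : ratioField K0 tb ≤ hov.resMap.fieldRange := by
    unfold ratioField
    rw [IntermediateField.adjoin_le_iff]
    rintro z ⟨i, j, rfl⟩
    by_cases hj : tb j = 0
    · rw [hj, div_zero]
      exact zero_mem _
    · have h1 := Pool.Agent.Z15P.T2h99.J.ord_zero_of_red v (hc j).1 (by rw [(hc j).2]; exact hj)
      have hcj : v.Reg (c * cst M t j)⁻¹ := Or.inr (by rw [v.ord_inv, h1.2, neg_zero])
      have htj : cst M t j ≠ 0 := right_ne_zero_of_mul h1.1
      have h3 : algebraMap K1 M (t i / t j) = (c * cst M t i) * (c * cst M t j)⁻¹ := by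
        rw [map_div₀]
        show cst M t i / cst M t j = _
        field_simp
      have h4 : v.Reg (algebraMap K1 M (t i / t j)) := by
        rw [h3]
        exact v.reg_mul (hc i).1 hcj
      have h5 : v.red (c * cst M t j)⁻¹ = (tb j)⁻¹ := by
        have h6 : v.red ((c * cst M t j) * (c * cst M t j)⁻¹) = 1 := by
          rw [mul_inv_cancel₀ h1.1, v.red_one]
        rw [v.red_mul (hc j).1 hcj, (hc j).2] at h6
        exact eq_inv_of_mul_eq_one_right h6
      refine ⟨v0.red (t i / t j), ?_⟩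
      show hov.resMap (v0.red (t i / t j)) = _
      rw [hov.resMap_red (hov.reg.1 h4), h3, v.red_mul (hc i).1 hcj, (hc i).2, h5, div_eq_mul_inv]
  have h1 : Algebra.trdeg K0 (ratioField K0 tb) ≤ Algebra.trdeg K0 hov.resMap.fieldRange :=
    trdeg_le_of_injective (IntermediateField.inclusion hle) (IntermediateField.inclusion hle).injective
  have h2 : Algebra.trdeg K0 hov.resMap.fieldRange ≤ Algebra.trdeg K0 v0.RF :=
    trdeg_le_of_surjective (AlgHom.rangeRestrict hov.resMap) (AlgHom.rangeRestrict_surjective _)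
  refine (h1.trans h2).trans_lt ?_
  rw [hm2]
  exact_mod_cast hm1

end

/-- `X_TR` for one generator -/
theorem tr_gen (hFIN : T_FIN) (hABH : T_ABH) (hCYC : T_CYC2) (K0 K1 : Type) [Field K0] [Field K1]
    [Algebra K0 K1] [Infinite K0] (μ ν γ α : Type) [Fintype μ] [Fintype ν] (δ q : ℕ)
    (hK1 : IsFG δ K0 K1) (G : γ → MvPolynomial μ K0) (F : α → MvPolynomial ν (MvPolynomial μ K0))
    (g : γ → ℕ) (e d : α → ℕ) (hB : Bihom G F g e d) (t : μ → K1) (ht : t ≠ 0)
    (hG : ∀ c, aeval t (G c) = 0)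
    (Φ : (Set (MvPolynomial ν K1) →₀ ℤ) →+ (Set (MvPolynomial (μ × ν) K0) →₀ ℤ)) (hΦ : IsSegMap t Φ)
    (M : Type) [Field M] [Algebra K1 M] (Q : ν → M) (h : M) (D : Set (MvPolynomial ν K1) →₀ ℤ)
    (hM : IsFG (q + 1) K1 M) (hQ0 : Q ≠ 0) (hQ : ∀ a, aeval Q (spec t (F a)) = 0) (hh : h ≠ 0)
    (hD : Pool.Agent.Z15P.Z15.J.IsDivisor K1 q Q h D) :
    Φ D ∈ RatX K0 (q + δ) G F ⊔ AddSubgroup.closure (VX K0 (q + δ) δ G F) := by
  classical
  let _ : Algebra K0 M := ((algebraMap K1 M).comp (algebraMap K0 K1)).toAlgebra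
  have htow : IsScalarTower K0 K1 M := IsScalarTower.of_algebraMap_eq fun x => rfl
  obtain ⟨T, R, hR, hT, rfl⟩ := hD
  have hFG : IsFG (q + δ + 1) K0 M := by
    constructor
    · have := hK1.1
      have := hM.1
      exact Algebra.EssFiniteType.comp K0 K1 M
    · rw [← trdeg_add_eq K0 K1 (A := M), hK1.2, hM.2]
      norm_cast
      ring
  have hinj : Function.Injective (algebraMap K1 M) := (algebraMap K1 M).injective
  have ht0 : cst M t ≠ 0 := by
    intro h0
    apply ht
    funext i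
    have h1 := congrFun h0 i
    exact (map_eq_zero (algebraMap K1 M)).1 h1
  -- the point of the family
  have hpt : IsPt G F (cst M t) Q := by
    refine ⟨ht0, hQ0, fun c => ?_, fun a => ?_⟩
    · have h1 : aeval (cst M t) (G c) = (IsScalarTower.toAlgHom K0 K1 M) (aeval t (G c)) := by
        rw [comp_aeval_apply]
        rfl
      rw [h1, hG c, map_zero]
    · have h1 := spec_map (IsScalarTower.toAlgHom K0 K1 M) t (F a)
      have h2 : (fun i => (IsScalarTower.toAlgHom K0 K1 M) (t i)) = cst M t := rfl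
      rw [h2] at h1
      rw [← h1]
      have h3 := hQ a
      rw [aeval_def, eval₂_eq_eval_map] at h3
      exact h3
  -- reductions
  choose tb htb using fun v : Place K0 M => exists_isRed v ht0
  choose xb hxb using fun v : Place K0 M => exists_isRed v hQ0
  have hred : ∀ v : Place K0 M, IsRed v (seg (cst M t) Q) (seg (tb v) (xb v)) := fun v =>
    isRed_seg (htb v) (hxb v)
  have hfin := hFIN K0 (μ × ν) M (q + δ) hFG (seg (cst M t) Q) h (fun v => seg (tb v) (xb v)) hred hh
  set T2 := hfin.toFinset with hT2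
  have hmem2 : ∀ v, v ∈ T2 ↔ Algebra.trdeg K0 v.RF = ((q + δ : ℕ) : Cardinal) ∧ v.ord h ≠ 0 ∧
      cyc K0 (seg (tb v) (xb v)) ≠ 0 := fun v => by
    rw [hT2, Set.Finite.mem_toFinset]
    rfl
  have hsum : ∑ v ∈ T2, v.ord h • cyc K0 (seg (tb v) (xb v)) ∈ RatX K0 (q + δ) G F := by
    refine AddSubgroup.subset_closure ⟨M, _, _, cst M t, Q, h, hFG, hpt, hh, T2,
      fun v => seg (tb v) (xb v), hred, hmem2, rfl⟩
  -- the classes at the places over `K1`
  have hcls : ∀ v : Place K1 M, Φ (cyc K1 (R v)) = cyc K0 (seg (tb (dn K0 v)) (xb (dn K0 v))) := by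
    intro v
    let _ := algRF K0 v
    have := towRF K0 v
    rw [hΦ v.RF (R v) (hR v).1]
    have h1 : IsRed (dn K0 v) (cst M t) (cst v.RF t) := by
      refine ⟨?_, 1, one_ne_zero, fun i => ?_⟩
      · intro h0
        apply ht
        funext i
        have h1 := congrFun h0 i
        exact (map_eq_zero (algebraMap K1 v.RF)).1 h1
      · rw [one_mul]
        exact ⟨v.reg_const (t i), rfl⟩
    have h2 : IsRed (dn K0 v) Q (R v) := hR v
    have h3 := isRed_seg h1 h2
    obtain ⟨x, hx, hx'⟩ := h3.unique (hred (dn K0 v))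
    rw [hx']
    exact (cyc_scale (k := K0) _ x hx).symm
  -- transcendence degrees
  have htr : ∀ v : Place K1 M, Algebra.trdeg K0 (dn K0 v).RF = δ + Algebra.trdeg K1 v.RF := by
    intro v
    let _ := algRF K0 v
    have := towRF K0 v
    rw [← hK1.2, trdeg_add_eq K0 K1 (A := v.RF)]
    rfl
  rw [map_sum]
  have e1 : ∑ v ∈ T, Φ (v.ord h • cyc K1 (R v)) =
      ∑ v ∈ T2.filter (fun v => ∀ x : K1, v.ord (algebraMap K1 M x) = 0),
        v.ord h • cyc K0 (seg (tb v) (xb v)) := by
    refine Finset.sum_bij_ne_zero (fun v _ _ => dn K0 v) ?_ ?_ ?_ ?_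
    · intro v hv hne
      rw [map_zsmul, hcls] at hne
      refine Finset.mem_filter.2 ⟨(hmem2 _).2 ⟨?_, ((hT v).1 hv).2.1, ?_⟩, fun x => ?_⟩
      · rw [htr, ((hT v).1 hv).1]
        push_cast
        ring
      · intro h0
        apply hne
        rw [h0, smul_zero]
      · by_cases hx : x = 0
        · rw [hx, map_zero]
          exact v.ord_zero
        · exact v.ord_const hx
    · intro v _ _ v' _ _ hvv
      have h1 : (dn K0 v).ord = (dn K0 v').ord := congrArg Place.ord hvv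
      exact Place.ext h1
    · intro v ht hne
      obtain ⟨ht2, ht3⟩ := Finset.mem_filter.1 ht
      obtain ⟨h1, h2, h3⟩ := (hmem2 v).1 ht2
      have hdn : dn K0 (up v ht3) = v := rfl
      have hcl : Φ (cyc K1 (R (up v ht3))) = cyc K0 (seg (tb v) (xb v)) := hcls (up v ht3)
      refine ⟨up v ht3, (hT _).2 ⟨?_, h2, ?_⟩, ?_, hdn⟩
      · have h4 := htr (up v ht3)
        rw [hdn] at h4
        rw [h4] at h1
        push_cast at h1
        rw [add_comm] at h1
        exact (Cardinal.add_right_inj_of_lt_aleph0 (Cardinal.natCast_lt_aleph0 (n := δ))).1 h1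
      · intro h0
        apply h3
        rw [← hcl, h0, map_zero]
      · rw [map_zsmul, hcl]
        exact hne
    · intro v _ _
      rw [map_zsmul, hcls]
      rfl
  have e2 := Finset.sum_filter_add_sum_filter_not T2 (fun v => ∀ x : K1, v.ord (algebraMap K1 M x) = 0)
    (fun v => v.ord h • cyc K0 (seg (tb v) (xb v)))
  have e3 : ∑ v ∈ T2.filter (fun v => ¬ ∀ x : K1, v.ord (algebraMap K1 M x) = 0),
      v.ord h • cyc K0 (seg (tb v) (xb v)) ∈ AddSubgroup.closure (VX K0 (q + δ) δ G F) := by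
    refine sum_mem fun v hv => zsmul_mem (AddSubgroup.subset_closure ?_) _
    obtain ⟨hv2, hv3⟩ := Finset.mem_filter.1 hv
    obtain ⟨h1, -, -⟩ := (hmem2 v).1 hv2
    push Not at hv3
    exact ⟨v.RF, _, _, tb v, xb v, isPt_red hB hpt (htb v) (hxb v), h1,
      trdeg_red hABH hK1.2 v hv3 (htb v), rfl⟩
  rw [e1, eq_sub_of_add_eq e2]
  exact sub_mem (AddSubgroup.mem_sup_left hsum) (AddSubgroup.mem_sup_right e3)

/-- `X_TR` -/
theorem t_X_TRi : X_SPEC → T_FIN → T_ABH → T_CYC2 → X_TR := by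
  intro _ hFIN hABH hCYC K0 K1 _ _ _ _ μ ν γ α _ _ δ q hK1 G F g e d hB t ht hG Φ hΦ D hD
  induction hD using AddSubgroup.closure_induction with
  | mem D hD =>
    obtain ⟨M, _, _, Q, h, hM, hQ0, hQ, hh, hD⟩ := hD
    exact tr_gen hFIN hABH hCYC K0 K1 μ ν γ α δ q hK1 G F g e d hB t ht hG Φ hΦ M Q h D hM hQ0 hQ hh hD
  | zero => rw [map_zero]; exact zero_mem _
  | add x y _ _ hx hy => rw [map_add]; exact add_mem hx hy
  | neg x _ hx => rw [map_neg]; exact neg_mem hx

/-- `X_TR` -/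
theorem t_X_TR : X_SPEC → X_TR := fun h =>
  t_X_TRi h Pool.Agent.Z15P.T2h99.J.t_FIN Pool.Agent.Z15P.T2h99.J.t_ABH Pool.Agent.Z15P.T2h99.J.t_CYC2

end Pool.Agent.T2h4.X15
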