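import Pool.Agent.Z15P.Rel.Stm
import Pool.Agent.Z15P.T2h99.J.Wd

/-!
Existence of the map `Φ` for families over a base: `X_WD`.
-/

set_option autoImplicit false

open FF FF.PP MvPolynomial Pool.Agent.Z15P.Z15.H Pool.Agent.Z15P.Z15.J Pool.Agent.Z15P.Z15.J.Stm
  Pool.Agent.Z15P.Rel
open Pool.Agent.Z15P.T2h64.H15 (cyc_scale locus_scale ratio_scale locus_map ratio_map)
open Pool.Agent.Z15P.T2h99.J (t_CYC2 exists_iso adjoin_top ker_eq locus_ne)

namespace Pool.Agent.T2h4.X15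

theorem seg_scale_right {μ ν A : Type} [CommRing A] (t : μ → A) (x : ν → A) (c : A) :
    seg t (fun i => c * x i) = fun i => c * seg t x i := by
  funext i
  show t i.1 * (c * x i.2) = c * (t i.1 * x i.2)
  ring

theorem seg_scale_left {μ ν A : Type} [CommRing A] (t : μ → A) (x : ν → A) (c : A) :
    seg (fun i => c * t i) x = fun i => c * seg t x i := by
  funext i
  show c * t i.1 * x i.2 = c * (t i.1 * x i.2)
  ring

section

variable {K0 K1 : Type} [Field K0] [Field K1] [Algebra K0 K1] {μ ν : Type}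

theorem fam_scale {κ : Type} [Field κ] [Algebra K1 κ] [Algebra K0 κ] [IsScalarTower K0 K1 κ] (t : μ → K1)
    (e : ν → κ) (c : κ) (hc : c ≠ 0) :
    cyc K0 (seg (cst κ t) (fun j => c * e j)) = cyc K0 (seg (cst κ t) e) := by
  rw [seg_scale_right, cyc_scale _ _ hc]

variable [Infinite K0] [Fintype μ] [Fintype ν]

theorem fam_ext {κ κ' : Type} [Field κ] [Algebra K1 κ] [Algebra K0 κ] [IsScalarTower K0 K1 κ] [Field κ']
    [Algebra K1 κ'] [Algebra K0 κ'] [IsScalarTower K0 K1 κ'] [Algebra κ κ'] [IsScalarTower K1 κ κ']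
    [IsScalarTower K0 κ κ'] (t : μ → K1) (e : ν → κ) :
    cyc K0 (seg (cst κ' t) (fun j => algebraMap κ κ' (e j))) =
      Module.finrank κ κ' • cyc K0 (seg (cst κ t) e) := by
  rw [← (t_CYC2 K0 (μ × ν) κ).2.2.1 κ' (seg (cst κ t) e)]
  congr 1
  funext i
  show algebraMap K1 κ' (t i.1) * algebraMap κ κ' (e i.2) =
    algebraMap κ κ' (algebraMap K1 κ (t i.1) * e i.2)
  rw [map_mul, ← IsScalarTower.algebraMap_apply K1 κ κ']

/-- the class depends only on the locus if the ratio field is everything -/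
theorem fam_unique {κ κ' : Type} [Field κ] [Algebra K1 κ] [Algebra K0 κ] [IsScalarTower K0 K1 κ] [Field κ']
    [Algebra K1 κ'] [Algebra K0 κ'] [IsScalarTower K0 K1 κ'] (t : μ → K1) (e : ν → κ)
    (e' : ν → κ') (he : e ≠ 0) (hl : locus K1 e = locus K1 e') (hr : ratioField K1 e = ⊤)
    (hr' : ratioField K1 e' = ⊤) :
    cyc K0 (seg (cst κ t) e) = cyc K0 (seg (cst κ' t) e') := by
  obtain ⟨j, hj⟩ : ∃ j, e j ≠ 0 := by
    by_contra hn
    push Not at hn
    exact he (funext hn)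
  have hj' : e' j ≠ 0 := locus_ne hl j hj
  -- normalization
  rw [← fam_scale t e (e j)⁻¹ (inv_ne_zero hj), ← fam_scale t e' (e' j)⁻¹ (inv_ne_zero hj')]
  obtain ⟨e1, he1⟩ : ∃ e1 : ν → κ, e1 = fun i => (e j)⁻¹ * e i := ⟨_, rfl⟩
  obtain ⟨e1', he1'⟩ : ∃ e1' : ν → κ', e1' = fun i => (e' j)⁻¹ * e' i := ⟨_, rfl⟩
  rw [← he1, ← he1']
  have hl1 : locus K1 e1 = locus K1 e1' := by
    rw [he1, he1', locus_scale e _ (inv_ne_zero hj), locus_scale e' _ (inv_ne_zero hj'), hl]
  have hr1 : ratioField K1 e1 = ⊤ := by rw [he1, ratio_scale e _ (inv_ne_zero hj), hr]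
  have hr1' : ratioField K1 e1' = ⊤ := by rw [he1', ratio_scale e' _ (inv_ne_zero hj'), hr']
  have hj1 : e1 j = 1 := by rw [he1]; exact inv_mul_cancel₀ hj
  have hj1' : e1' j = 1 := by rw [he1']; exact inv_mul_cancel₀ hj'
  obtain ⟨ψ, hψ⟩ := exists_iso e1 e1' (adjoin_top e1 hr1) (ker_eq e1 e1' j hj1 hj1' hl1)
  have hψs : Function.Surjective ψ := by
    intro y
    have hy : y ∈ IntermediateField.adjoin K1 (Set.range e1') := by rw [adjoin_top e1' hr1']; trivial
    obtain ⟨r, s, hrs⟩ := (IntermediateField.mem_adjoin_range_iff K1 e1' y).1 hy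
    refine ⟨aeval e1 r / aeval e1 s, ?_⟩
    rw [map_div₀, hrs]
    have hc : ∀ G : MvPolynomial ν K1, ψ (aeval e1 G) = aeval e1' G := by
      intro G
      rw [comp_aeval_apply (φ := ψ)]
      congr 1
      congr 1
      funext i
      exact hψ i
    rw [hc, hc]
  let _ : Algebra κ κ' := ψ.toRingHom.toAlgebra
  have : IsScalarTower K1 κ κ' := IsScalarTower.of_algebraMap_eq fun x => (ψ.commutes x).symm
  have : IsScalarTower K0 κ κ' := IsScalarTower.of_algebraMap_eq fun x => by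
    rw [IsScalarTower.algebraMap_apply K0 K1 κ', IsScalarTower.algebraMap_apply K0 K1 κ,
      ← IsScalarTower.algebraMap_apply K1 κ κ']
  have h1 : Module.finrank κ κ' = 1 := by
    have h2 := Algebra.finrank_eq_of_equiv_equiv (RingEquiv.refl κ)
      (RingEquiv.ofBijective ψ.toRingHom ⟨ψ.toRingHom.injective, hψs⟩) (by
        ext x
        rfl)
    rw [← h2, Module.finrank_self]
  have h2 := fam_ext (K0 := K0) (κ' := κ') t e1
  rw [h1, one_smul] at h2
  rw [← h2]
  congr 2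
  funext i
  exact hψ i

/-- a representative over the ratio field -/
theorem fam_rep {κ : Type} [Field κ] [Algebra K1 κ] [Algebra K0 κ] [IsScalarTower K0 K1 κ] (t : μ → K1)
    (e : ν → κ) (he : e ≠ 0) :
    ∃ (e' : ν → ratioField K1 e), e' ≠ 0 ∧ locus K1 e' = locus K1 e ∧ ratioField K1 e' = ⊤ ∧
      cyc K0 (seg (cst κ t) e) =
        Module.finrank (ratioField K1 e) κ • cyc K0 (seg (cst (ratioField K1 e) t) e') := by
  obtain ⟨j, hj⟩ : ∃ j, e j ≠ 0 := by
    by_contra hn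
    push Not at hn
    exact he (funext hn)
  set R := ratioField K1 e with hR
  have hmem : ∀ i, (e j)⁻¹ * e i ∈ R := fun i => by
    rw [hR, inv_mul_eq_div]
    exact IntermediateField.subset_adjoin _ _ ⟨i, j, rfl⟩
  obtain ⟨e', he'⟩ : ∃ e' : ν → R, ∀ i, (e' i : κ) = (e j)⁻¹ * e i := ⟨fun i => ⟨_, hmem i⟩, fun i => rfl⟩
  have he'' : (fun i => algebraMap R κ (e' i)) = fun i => (e j)⁻¹ * e i := funext he'
  have hloc : locus K1 e' = locus K1 e := by
    have h1 := locus_map (IsScalarTower.toAlgHom K1 R κ) e'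
    rw [← h1, ← locus_scale e _ (inv_ne_zero hj)]
    congr 1
  have hrat : ratioField K1 e' = ⊤ := by
    have h1 := ratio_map (IsScalarTower.toAlgHom K1 R κ) e'
    have h2 : ratioField K1 (fun i => (IsScalarTower.toAlgHom K1 R κ) (e' i)) = R := by
      have h3 : (fun i => (IsScalarTower.toAlgHom K1 R κ) (e' i)) = fun i => (e j)⁻¹ * e i := funext he'
      rw [h3, ratio_scale e _ (inv_ne_zero hj)]
    rw [h2] at h1
    rw [eq_top_iff]
    intro x _
    have hx : (x : κ) ∈ (ratioField K1 e').map (IsScalarTower.toAlgHom K1 R κ) := by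
      rw [← h1]
      exact x.2
    obtain ⟨y, hy, hyx⟩ := hx
    have : y = x := Subtype.ext hyx
    rw [← this]
    exact hy
  have htow : IsScalarTower K0 R κ := IsScalarTower.of_algebraMap_eq fun x => rfl
  refine ⟨e', ?_, hloc, hrat, ?_⟩
  · intro h0
    have h1 := he' j
    rw [h0, inv_mul_cancel₀ hj] at h1
    exact zero_ne_one h1
  · rw [← fam_ext (K0 := K0) (κ' := κ) t e', ← fam_scale t e _ (inv_ne_zero hj), he'']

end

/-- `X_WD` -/
theorem t_X_WD : X_WD := by
  classical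
  intro K0 K1 _ _ _ _ μ ν _ _ t _
  -- the possible values
  let Pr : Set (MvPolynomial ν K1) → (Set (MvPolynomial (μ × ν) K0) →₀ ℤ) → Prop := fun Z c =>
    ∃ (κ : Type) (_ : Field κ) (_ : Algebra K1 κ) (_ : Algebra K0 κ) (_ : IsScalarTower K0 K1 κ) (e : ν → κ),
      e ≠ 0 ∧ locus K1 e = Z ∧ ratioField K1 e = ⊤ ∧ c = cyc K0 (seg (cst κ t) e)
  let Ψ : Set (MvPolynomial ν K1) → (Set (MvPolynomial (μ × ν) K0) →₀ ℤ) := fun Z =>
    if h : ∃ c, Pr Z c then h.choose else 0
  refine ⟨Finsupp.liftAddHom fun Z => zmultiplesHom _ (Ψ Z), ?_⟩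
  intro κ _ _ _ _ e he
  obtain ⟨e', he', hl, hr, hc⟩ := fam_rep (K0 := K0) t e he
  have hex : ∃ c, Pr (locus K1 e) c :=
    ⟨_, ratioField K1 e, inferInstance, inferInstance, inferInstance, inferInstance, e', he', hl, hr, rfl⟩
  have hΨ : Ψ (locus K1 e) = cyc K0 (seg (cst (ratioField K1 e) t) e') := by
    have h1 : Ψ (locus K1 e) = hex.choose := dif_pos hex
    rw [h1]
    obtain ⟨κ2, _, _, _, _, e2, h2, h3, h4, h5⟩ := hex.choose_spec
    rw [h5]
    exact fam_unique t e2 e' h2 (h3.trans hl.symm) h4 hr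
  unfold cyc
  rw [Finsupp.liftAddHom_apply_single]
  show zmultiplesHom _ (Ψ (locus K1 e)) _ = cyc K0 (seg (cst κ t) e)
  rw [hΨ, hc, zmultiplesHom_apply, natCast_zsmul]

end Pool.Agent.T2h4.X15
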